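import Pool.Agent.N71.PS.DStubs
import Pool.Agent.H38R2.CG.TB3c

/-! PSD/LO: the local density at an odd prime. -/

set_option autoImplicit false

namespace Pool.Agent.N71.PS.LO

open Finset Filter NumberField Pool.Agent.H38R2.CG Pool.Agent.H38R2.CG2
open scoped Classical

theorem fact_shift {p : ℕ} (hp : p.Prime) {e v P : ℕ} (hP : p ^ (e + 1) ∣ P)
    (hv : ¬ p ^ (e + 1) ∣ v) : (v + P).factorization p = v.factorization p := by
  have hv0 : v ≠ 0 := by rintro rfl; exact hv (dvd_zero _)
  have hvP : ¬ p ^ (e + 1) ∣ v + P := fun h => hv ((Nat.dvd_add_left hP).1 h)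
  have hvP0 : v + P ≠ 0 := by omega
  have key : ∀ k ≤ e + 1, (p ^ k ∣ v + P ↔ p ^ k ∣ v) :=
    fun k hk => Nat.dvd_add_left ((pow_dvd_pow p hk).trans hP)
  have a1 : (v + P).factorization p ≤ e := by
    by_contra h
    exact hvP ((hp.pow_dvd_iff_le_factorization hvP0).2 (by omega))
  have a2 : v.factorization p ≤ e := by
    by_contra h
    exact hv ((hp.pow_dvd_iff_le_factorization hv0).2 (by omega))
  apply le_antisymm
  · exact (hp.pow_dvd_iff_le_factorization hv0).1 ((key _ (by omega)).1 (Nat.ordProj_dvd _ _))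
  · exact (hp.pow_dvd_iff_le_factorization hvP0).1 ((key _ (by omega)).2 (Nat.ordProj_dvd _ _))

theorem fact_le {p : ℕ} (hp : p.Prime) {e v : ℕ} (hv : ¬ p ^ (e + 1) ∣ v) :
    v.factorization p ≤ e := by
  have hv0 : v ≠ 0 := by rintro rfl; exact hv (dvd_zero _)
  by_contra h
  exact hv ((hp.pow_dvd_iff_le_factorization hv0).2 (by omega))

theorem hp_per {p : ℕ} (hpp : p.Prime) (k r e n v : ℕ) :
    hp p k r e n (v + p ^ (2 * e + 2 + k)) = hp p k r e n v := by
  have hP : p ^ (e + 1) ∣ p ^ (2 * e + 2 + k) := pow_dvd_pow p (by omega)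
  unfold hp
  by_cases hv : p ^ (e + 1) ∣ v
  · have hvP : p ^ (e + 1) ∣ v + p ^ (2 * e + 2 + k) := dvd_add hv hP
    rw [if_neg (not_not.2 hv), if_neg (not_not.2 hvP)]
  · have hvP : ¬ p ^ (e + 1) ∣ v + p ^ (2 * e + 2 + k) := fun h => hv ((Nat.dvd_add_left hP).1 h)
    rw [if_pos hvP, if_pos hv, fact_shift hpp hP hv]
    congr 2
    apply Finset.filter_congr
    intro u _
    have hle := fact_le hpp hv
    have hd : p ^ (k + 2 * v.factorization p) ∣ p ^ (2 * e + 2 + k) := pow_dvd_pow p (by omega)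
    have h1 : 4 * n + r * (v + p ^ (2 * e + 2 + k)) ^ 2 ≡ 4 * n + r * v ^ 2
        [MOD p ^ (k + 2 * v.factorization p)] := by
      apply Nat.ModEq.add_left
      apply Nat.ModEq.mul_left
      apply Nat.ModEq.pow
      have := (Nat.modEq_zero_iff_dvd.2 hd).add_left v
      simpa using this
    exact ⟨fun h => h.trans h1, fun h => h.trans h1.symm⟩

theorem sum_per (f : ℕ → ℝ) (b : ℕ) (hf : ∀ v, f (v + b) = f v) (a : ℕ) :
    ∑ v ∈ range (a * b), f v = a * ∑ v ∈ range b, f v := by
  have hmul : ∀ a x, f (a * b + x) = f x := by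
    intro a
    induction a with
    | zero => intro x; simp
    | succ a ih =>
      intro x
      have e1 : (a + 1) * b + x = (a * b + x) + b := by ring
      rw [e1, hf, ih]
  induction a with
  | zero => simp
  | succ a ih =>
    rw [add_mul, one_mul, Finset.sum_range_add, ih]
    simp only [hmul]
    push_cast
    ring

theorem sum_zmod {p : ℕ} [NeZero p] (f : ZMod p → ℝ) :
    ∑ i ∈ range p, f (i : ZMod p) = ∑ x : ZMod p, f x := by
  refine Finset.sum_bij' (fun i _ => (i : ZMod p)) (fun x _ => x.val) ?_ ?_ ?_ ?_ ?_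
  · intro i _; exact Finset.mem_univ _
  · intro x _; exact Finset.mem_range.2 (ZMod.val_lt x)
  · intro i hi; exact ZMod.val_natCast_of_lt (Finset.mem_range.1 hi)
  · intro x _; exact ZMod.natCast_zmod_val x
  · intro i _; rfl

section zm

variable {p : ℕ} [Fact p.Prime]

theorem sum_lin (hp2 : p ≠ 2) (c r : ZMod p) (hr : r ≠ 0) :
    ∑ v : ZMod p, quadraticChar (ZMod p) (c + r * v) = 0 := by
  have h0 : ∑ a : ZMod p, quadraticChar (ZMod p) a = 0 := by
    apply quadraticChar_sum_zero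
    rw [ZMod.ringChar_zmod_n]
    exact hp2
  rw [← h0]
  have hb : Function.Bijective (fun v : ZMod p => c + r * v) := by
    refine (Finite.injective_iff_bijective).1 ?_
    intro x y h
    simp only [add_right_inj] at h
    exact mul_left_cancel₀ hr h
  exact Fintype.sum_bijective _ hb _ _ (fun x => rfl)

theorem sum_quad (hp2 : p ≠ 2) (c r : ZMod p) (hc : c ≠ 0) (hr : r ≠ 0) :
    ∑ v : ZMod p, quadraticChar (ZMod p) (c + r * v ^ 2) = - quadraticChar (ZMod p) r := by
  have hF : ringChar (ZMod p) ≠ 2 := by rw [ZMod.ringChar_zmod_n]; exact hp2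
  have h1 : ∑ v : ZMod p, quadraticChar (ZMod p) (c + r * v ^ 2) =
      ∑ w : ZMod p, (quadraticChar (ZMod p) w + 1) * quadraticChar (ZMod p) (c + r * w) := by
    rw [← Finset.sum_fiberwise' Finset.univ (fun v : ZMod p => v ^ 2)
      (fun w => quadraticChar (ZMod p) (c + r * w))]
    apply Finset.sum_congr rfl
    intro w _
    rw [Finset.sum_const, nsmul_eq_mul]
    congr 1
    rw [← quadraticChar_card_sqrts hF w]
    congr 2
    ext x
    simp
  rw [h1]
  have h2 : ∑ w : ZMod p, (quadraticChar (ZMod p) w + 1) * quadraticChar (ZMod p) (c + r * w) =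
      ∑ w : ZMod p, quadraticChar (ZMod p) w * quadraticChar (ZMod p) (c + r * w) := by
    simp only [add_mul, one_mul, Finset.sum_add_distrib, sum_lin hp2 c r hr, add_zero]
  rw [h2]
  have h3 : ∀ w : ZMod p, quadraticChar (ZMod p) w * quadraticChar (ZMod p) (c + r * w) =
      (if w = 0 then 0 else quadraticChar (ZMod p) (r + c * w⁻¹)) := by
    intro w
    by_cases hw : w = 0
    · rw [if_pos hw, hw]; simp
    · rw [if_neg hw]
      have e1 : c + r * w = w * (r + c * w⁻¹) := by field_simp; ring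
      rw [e1, map_mul, ← mul_assoc, ← sq, quadraticChar_sq_one hw, one_mul]
  simp only [h3]
  have h4 : ∑ w : ZMod p, (if w = 0 then 0 else quadraticChar (ZMod p) (r + c * w⁻¹)) =
      ∑ t : ZMod p, (if t = 0 then 0 else quadraticChar (ZMod p) (r + c * t)) := by
    have hb : Function.Bijective (fun v : ZMod p => v⁻¹) := inv_involutive.bijective
    refine Fintype.sum_bijective _ hb _ _ (fun x => ?_)
    by_cases hx : x = 0
    · simp [hx]
    · rw [if_neg hx, if_neg (inv_ne_zero hx)]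
  rw [h4]
  have h5 : ∀ t : ZMod p, (if t = 0 then 0 else quadraticChar (ZMod p) (r + c * t)) =
      quadraticChar (ZMod p) (r + c * t) - (if t = 0 then quadraticChar (ZMod p) r else 0) := by
    intro t
    by_cases ht : t = 0
    · simp [ht]
    · simp [ht]
  simp only [h5, Finset.sum_sub_distrib, sum_lin hp2 r c hc, Finset.sum_ite_eq', Finset.mem_univ,
    if_true, zero_sub]

/-- number of roots modulo `p` in terms of `ZMod p` -/
theorem card_roots (hp2 : p ≠ 2) (c : ℕ) :
    (((range p).filter (fun u => u ^ 2 ≡ c [MOD p])).card : ℤ) =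
      quadraticChar (ZMod p) (c : ZMod p) + 1 := by
  have hF : ringChar (ZMod p) ≠ 2 := by rw [ZMod.ringChar_zmod_n]; exact hp2
  rw [← quadraticChar_card_sqrts hF (c : ZMod p)]
  congr 1
  refine Finset.card_bij' (fun i _ => (i : ZMod p)) (fun x _ => x.val) ?_ ?_ ?_ ?_
  · intro i hi
    rw [Finset.mem_filter] at hi
    simp only [Set.mem_toFinset, Set.mem_ofPred_eq]
    have := (ZMod.natCast_eq_natCast_iff _ _ _).2 hi.2
    push_cast at this
    exact this
  · intro x hx
    simp only [Set.mem_toFinset, Set.mem_ofPred_eq] at hx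
    rw [Finset.mem_filter]
    refine ⟨Finset.mem_range.2 (ZMod.val_lt x), ?_⟩
    apply (ZMod.natCast_eq_natCast_iff _ _ _).1
    push_cast
    rw [ZMod.natCast_zmod_val]
    exact hx
  · intro i hi
    exact ZMod.val_natCast_of_lt (Finset.mem_range.1 (Finset.mem_filter.1 hi).1)
  · intro x _; exact ZMod.natCast_zmod_val x

theorem root_bd (hp2 : p ≠ 2) (c k : ℕ) (hk : 1 ≤ k) (hc : ¬ p ∣ c) :
    (TB3ch.cnt c (p ^ k) : ℝ) ≤ 1 + (quadraticChar (ZMod p) (c : ZMod p) : ℝ) := by
  have hp : p.Prime := Fact.out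
  have hc0 : (c : ZMod p) ≠ 0 := by
    rw [Ne, ZMod.natCast_eq_zero_iff]
    exact hc
  rcases quadraticChar_dichotomy hc0 with h | h
  · rw [h]
    have h2 := TB3ch.cnt_odd c p k hp hp2 hc
    have h3 : (TB3ch.cnt c (p ^ k) : ℝ) ≤ 2 := by exact_mod_cast h2
    push_cast
    linarith
  · rw [h]
    have h0 : TB3ch.cnt c (p ^ k) = 0 := by
      by_contra hne
      obtain ⟨u, hu⟩ := Finset.card_pos.1 (Nat.pos_of_ne_zero hne)
      have h1 : u ^ 2 ≡ c [MOD p] := (Finset.mem_filter.1 hu).2.of_dvd (dvd_pow_self p (by omega))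
      have h2 : ((u : ZMod p)) ^ 2 = c := by
        have := (ZMod.natCast_eq_natCast_iff _ _ _).2 h1
        push_cast at this
        exact this
      have hu0 : (u : ZMod p) ≠ 0 := by
        intro hu0
        rw [hu0] at h2
        apply hc0
        rw [← h2]
        simp
      rw [← h2, quadraticChar_sq_one' hu0] at h
      norm_num at h
    rw [h0]
    push_cast
    linarith

theorem chi4n (hp2 : p ≠ 2) (n : ℕ) : quadraticChar (ZMod p) (((4 * n : ℕ) : ZMod p)) =
    quadraticChar (ZMod p) (n : ZMod p) := by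
  have hp : p.Prime := Fact.out
  have h2 : (2 : ZMod p) ≠ 0 := by
    intro h
    have h3 : ((2 : ℕ) : ZMod p) = 0 := by exact_mod_cast h
    rw [ZMod.natCast_eq_zero_iff] at h3
    exact hp2 ((Nat.prime_dvd_prime_iff_eq hp Nat.prime_two).1 h3)
  have e : ((4 * n : ℕ) : ZMod p) = 2 ^ 2 * n := by push_cast; ring
  rw [e, map_mul, quadraticChar_sq_one' h2, one_mul]

theorem chi_ge (a : ZMod p) : (-1 : ℝ) ≤ (quadraticChar (ZMod p) a : ℝ) := by
  by_cases h : a = 0
  · rw [h]; simp
  · rcases quadraticChar_dichotomy h with h | h <;> rw [h] <;> norm_num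

/-- the sum over a complete residue system modulo `p` -/
theorem sum_modp (hp2 : p ≠ 2) (r n : ℕ) (hr : ¬ p ∣ r) (hn : ¬ p ∣ n) :
    ∑ v ∈ range p, (if p ∣ v then (0 : ℝ) else
      ((((range p).filter (fun u => u ^ 2 ≡ 4 * n + r * v ^ 2 [MOD p])).card : ℕ) : ℝ)) =
      p - (quadraticChar (ZMod p) (r : ZMod p) : ℝ) - 1 - (quadraticChar (ZMod p) (n : ZMod p) : ℝ) := by
  have hp : p.Prime := Fact.out
  have hr0 : (r : ZMod p) ≠ 0 := by
    rw [Ne, ZMod.natCast_eq_zero_iff]; exact hr
  have hn0 : ((4 * n : ℕ) : ZMod p) ≠ 0 := by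
    rw [Ne, ZMod.natCast_eq_zero_iff]
    intro h
    rcases (hp.dvd_mul).1 h with h | h
    · have : p ∣ 2 ^ 2 := by simpa using h
      have := hp.dvd_of_dvd_pow this
      exact hp2 ((Nat.prime_dvd_prime_iff_eq hp Nat.prime_two).1 this)
    · exact hn h
  let g : ZMod p → ℝ := fun x : ZMod p =>
      (1 + (quadraticChar (ZMod p) (((4 * n : ℕ) : ZMod p) + r * x ^ 2) : ℝ)) -
        (if x = 0 then (1 + (quadraticChar (ZMod p) (((4 * n : ℕ) : ZMod p)) : ℝ)) else 0)
  have h1 : ∀ v ∈ range p, (if p ∣ v then (0 : ℝ) else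
      ((((range p).filter (fun u => u ^ 2 ≡ 4 * n + r * v ^ 2 [MOD p])).card : ℕ) : ℝ)) =
      g (v : ZMod p) := by
    intro v _
    show _ = (1 + (quadraticChar (ZMod p) (((4 * n : ℕ) : ZMod p) + r * (v : ZMod p) ^ 2) : ℝ)) -
        (if (v : ZMod p) = 0 then
          (1 + (quadraticChar (ZMod p) (((4 * n : ℕ) : ZMod p)) : ℝ)) else 0)
    by_cases hv : p ∣ v
    · have hv0 : (v : ZMod p) = 0 := (ZMod.natCast_eq_zero_iff _ _).2 hv
      rw [if_pos hv]
      simp only [hv0, if_true]
      simp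
    · have hv0 : (v : ZMod p) ≠ 0 := by rw [Ne, ZMod.natCast_eq_zero_iff]; exact hv
      rw [if_neg hv]
      simp only [hv0, if_false, sub_zero]
      have := card_roots hp2 (4 * n + r * v ^ 2)
      have h2 : ((((range p).filter (fun u => u ^ 2 ≡ 4 * n + r * v ^ 2 [MOD p])).card : ℕ) : ℝ) =
          (((((range p).filter (fun u => u ^ 2 ≡ 4 * n + r * v ^ 2 [MOD p])).card : ℕ) : ℤ) : ℝ) := by
        norm_cast
      rw [h2, this]
      push_cast
      ring
  refine (Finset.sum_congr rfl h1).trans ((sum_zmod g).trans ?_)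
  simp only [g]
  rw [Finset.sum_sub_distrib, Finset.sum_add_distrib, Finset.sum_ite_eq' Finset.univ]
  simp only [Finset.sum_const, Finset.card_univ, ZMod.card, nsmul_eq_mul, mul_one,
    Finset.mem_univ, if_true]
  have h3 := sum_quad hp2 ((4 * n : ℕ) : ZMod p) (r : ZMod p) hn0 hr0
  have h4 : ∑ x : ZMod p, (quadraticChar (ZMod p) (((4 * n : ℕ) : ZMod p) + r * x ^ 2) : ℝ) =
      - (quadraticChar (ZMod p) (r : ZMod p) : ℝ) := by
    exact_mod_cast h3
  rw [h4, chi4n hp2]
  ring

/-- the sum over a complete residue system modulo `p ^ 2` -/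
theorem sum_modp2 (hp2 : p ≠ 2) (r n : ℕ) (hr : ¬ p ∣ r) (hn : ¬ p ∣ n) :
    ∑ v ∈ range (p ^ 2), (if p ∣ v then (0 : ℝ) else
      ((((range (p ^ 2)).filter (fun u => u ^ 2 ≡ 4 * n + r * v ^ 2 [MOD p ^ 2])).card : ℕ) : ℝ)) ≤
      p * (p - (quadraticChar (ZMod p) (r : ZMod p) : ℝ) - 1 -
        (quadraticChar (ZMod p) (n : ZMod p) : ℝ)) := by
  have hp : p.Prime := Fact.out
  have hpp : 0 < p := hp.pos
  set S : Finset (ℕ × ℕ) := ((range (p ^ 2)) ×ˢ (range (p ^ 2))).filter
    (fun x => ¬ p ∣ x.2 ∧ x.1 ^ 2 ≡ 4 * n + r * x.2 ^ 2 [MOD p ^ 2]) with hS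
  set T : Finset (ℕ × ℕ) := ((range (p ^ 2)) ×ˢ (range p)).filter
    (fun x => ¬ p ∣ x.2 ∧ x.1 ^ 2 ≡ 4 * n + r * x.2 ^ 2 [MOD p]) with hT
  have hST : S.card ≤ T.card := by
    refine Finset.card_le_card_of_injOn (fun x => (x.1, x.2 % p)) ?_ ?_
    · rintro ⟨u, v⟩ hx
      rw [hS] at hx
      simp only [Finset.coe_filter, Finset.mem_product, Finset.mem_range, Set.mem_ofPred_eq] at hx
      rw [hT]
      simp only [Finset.coe_filter, Finset.mem_product, Finset.mem_range, Set.mem_ofPred_eq]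
      obtain ⟨⟨hu, hv⟩, hpv, h⟩ := hx
      refine ⟨⟨hu, Nat.mod_lt _ hpp⟩, ?_, ?_⟩
      · intro h'
        exact hpv ((Nat.dvd_mod_iff (dvd_refl p)).1 h')
      · have h1 : u ^ 2 ≡ 4 * n + r * v ^ 2 [MOD p] := h.of_dvd (dvd_pow_self p (by norm_num))
        refine h1.trans ?_
        apply Nat.ModEq.add_left
        apply Nat.ModEq.mul_left
        apply Nat.ModEq.pow
        exact (Nat.mod_modEq v p).symm
    · rintro ⟨u, v⟩ hx ⟨u', v'⟩ hx' hxx
      rw [hS] at hx hx'
      simp only [Finset.coe_filter, Finset.mem_product, Finset.mem_range, Set.mem_ofPred_eq] at hx hx'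
      simp only [Prod.mk.injEq] at hxx
      obtain ⟨⟨hu, hv⟩, hpv, h⟩ := hx
      obtain ⟨⟨hu', hv'⟩, hpv', h'⟩ := hx'
      obtain ⟨e1, e2⟩ := hxx
      subst e1
      have h2 : 4 * n + r * v ^ 2 ≡ 4 * n + r * v' ^ 2 [MOD p ^ 2] := h.symm.trans h'
      have h3 : r * v ^ 2 ≡ r * v' ^ 2 [MOD p ^ 2] := Nat.ModEq.add_left_cancel' _ h2
      have hcop : (p ^ 2).Coprime r := by
        apply Nat.Coprime.pow_left
        exact (Nat.Prime.coprime_iff_not_dvd hp).2 hr
      have h4 : v ^ 2 ≡ v' ^ 2 [MOD p ^ 2] :=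
        Nat.ModEq.cancel_left_of_coprime (by simpa [Nat.Coprime] using hcop) h3
      have h5 : ((p : ℤ) ^ 2) ∣ ((v' : ℤ) - v) * (v' + v) := by
        have := Nat.modEq_iff_dvd.1 h4
        push_cast at this
        have e : ((v' : ℤ) - v) * (v' + v) = v' ^ 2 - v ^ 2 := by ring
        rw [e]
        exact this
      have hvv : v ≡ v' [MOD p] := e2
      have h6 : ¬ (p : ℤ) ∣ ((v' : ℤ) + v) := by
        intro h6
        have h7 : (p : ℤ) ∣ (v' : ℤ) - v := Nat.modEq_iff_dvd.1 hvv
        have h8 : (p : ℤ) ∣ 2 * v' := by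
          have := dvd_add h7 h6
          have e : (v' : ℤ) - v + (v' + v) = 2 * v' := by ring
          rwa [e] at this
        rcases (Nat.prime_iff_prime_int.1 hp).dvd_or_dvd h8 with h9 | h9
        · have h10 : p ∣ 2 := by exact_mod_cast h9
          exact hp2 ((Nat.prime_dvd_prime_iff_eq hp Nat.prime_two).1 h10)
        · exact hpv' (by exact_mod_cast h9)
      have h7 : ((p : ℤ) ^ 2) ∣ ((v' : ℤ) - v) :=
        (IsCoprime.pow_left ((Prime.coprime_iff_not_dvd
          (Nat.prime_iff_prime_int.1 hp)).2 h6)).dvd_of_dvd_mul_right h5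
      have h8 : v ≡ v' [MOD p ^ 2] := by
        rw [Nat.modEq_iff_dvd]
        exact_mod_cast h7
      rw [Nat.ModEq.eq_of_lt_of_lt h8 hv hv']
  have hSc : (S.card : ℝ) = ∑ v ∈ range (p ^ 2), (if p ∣ v then (0 : ℝ) else
      ((((range (p ^ 2)).filter (fun u => u ^ 2 ≡ 4 * n + r * v ^ 2 [MOD p ^ 2])).card : ℕ) : ℝ)) := by
    rw [hS, Finset.card_filter, Finset.sum_product_right]
    push_cast
    apply Finset.sum_congr rfl
    intro v _
    by_cases hv : p ∣ v
    · rw [if_pos hv]
      apply Finset.sum_eq_zero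
      intro u _
      simp [hv]
    · rw [if_neg hv, Finset.card_filter]
      push_cast
      apply Finset.sum_congr rfl
      intro u _
      simp [hv]
  have hTc : (T.card : ℝ) = p * ∑ v ∈ range p, (if p ∣ v then (0 : ℝ) else
      ((((range p).filter (fun u => u ^ 2 ≡ 4 * n + r * v ^ 2 [MOD p])).card : ℕ) : ℝ)) := by
    rw [hT, Finset.card_filter, Finset.sum_product_right]
    push_cast
    rw [Finset.mul_sum]
    apply Finset.sum_congr rfl
    intro v _
    by_cases hv : p ∣ v
    · rw [if_pos hv, mul_zero]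
      apply Finset.sum_eq_zero
      intro u _
      simp [hv]
    · rw [if_neg hv, Finset.card_filter]
      push_cast
      have hper := sum_per (fun u : ℕ => if u ^ 2 ≡ 4 * n + r * v ^ 2 [MOD p] then (1 : ℝ) else 0) p
        (by
          intro u
          have : (u + p) ^ 2 ≡ u ^ 2 [MOD p] := by
            apply Nat.ModEq.pow
            simp [Nat.ModEq]
          have hiff : (u + p) ^ 2 ≡ 4 * n + r * v ^ 2 [MOD p] ↔ u ^ 2 ≡ 4 * n + r * v ^ 2 [MOD p] :=
            ⟨fun h => this.symm.trans h, fun h => this.trans h⟩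
          simp only [hiff]) p
      rw [← hper]
      rw [← sq]
      apply Finset.sum_congr rfl
      intro u _
      simp [hv]
  rw [← hSc, ← sum_modp hp2 r n hr hn, ← hTc]
  exact_mod_cast hST

end zm

theorem D_LO_true : D_LO := by
  intro p r e n hpri hp2 _ hpn
  have : Fact p.Prime := ⟨hpri⟩
  have hpp : 0 < p := hpri.pos
  refine ⟨fun v => ?_, ?_⟩
  · have h := hp_per hpri 2 r e n v
    rwa [show 2 * e + 2 + 2 = 2 * e + 4 by ring] at h
  have hjn : (jacobiSym (n : ℤ) p : ℝ) = (quadraticChar (ZMod p) (n : ZMod p) : ℝ) := by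
    rw [← jacobiSym.legendreSym.to_jacobiSym]
    simp [legendreSym]
  have hjr : (jacobiSym (r : ℤ) p : ℝ) = (quadraticChar (ZMod p) (r : ZMod p) : ℝ) := by
    rw [← jacobiSym.legendreSym.to_jacobiSym]
    simp [legendreSym]
  have h4n : ¬ p ∣ 4 * n := by
    intro h
    rcases (hpri.dvd_mul).1 h with h | h
    · have : p ∣ 2 ^ 2 := by simpa using h
      have := hpri.dvd_of_dvd_pow this
      exact hp2 ((Nat.prime_dvd_prime_iff_eq hpri Nat.prime_two).1 this)
    · exact hpn h
  have hge := chi_ge (p := p) (n : ZMod p)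
  -- if `p ∣ r v ^ 2` the count is at most `1 + (n/p)`
  have key : ∀ v : ℕ, p ∣ r * v ^ 2 →
      hp p 2 r e n v ≤ 1 + (quadraticChar (ZMod p) (n : ZMod p) : ℝ) := by
    intro v hv
    unfold Pool.Agent.N71.PS.hp
    split_ifs with h
    · linarith
    · have hnd : ¬ p ∣ 4 * n + r * v ^ 2 := fun h' => h4n ((Nat.dvd_add_left hv).1 h')
      have h1 := root_bd hp2 (4 * n + r * v ^ 2) (2 + 2 * v.factorization p) (by omega) hnd
      unfold TB3ch.cnt at h1
      refine h1.trans (le_of_eq ?_)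
      have e1 : ((4 * n + r * v ^ 2 : ℕ) : ZMod p) = ((4 * n : ℕ) : ZMod p) := by
        have := (ZMod.natCast_eq_zero_iff (r * v ^ 2) p).2 hv
        rw [Nat.cast_add, this, add_zero]
      rw [e1, chi4n hp2]
  by_cases hr : p ∣ r
  · have hal : al p r n = 1 + (quadraticChar (ZMod p) (n : ZMod p) : ℝ) := by
      unfold al
      rw [if_pos hr, hjn]
    rw [hal]
    have h1 := Finset.sum_le_card_nsmul (range (p ^ (2 * e + 4))) (fun v => hp p 2 r e n v)
      (1 + (quadraticChar (ZMod p) (n : ZMod p) : ℝ))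
      (fun v _ => key v (Dvd.dvd.mul_right hr _))
    rw [Finset.card_range, nsmul_eq_mul] at h1
    push_cast at h1
    linarith
  · have hal : al p r n = 1 - (quadraticChar (ZMod p) (r : ZMod p) : ℝ) / p := by
      unfold al
      rw [if_neg hr, hjr]
    rw [hal]
    set A : ℕ → ℝ := fun v => if p ∣ v then 1 + (quadraticChar (ZMod p) (n : ZMod p) : ℝ) else 0
      with hA
    set B : ℕ → ℝ := fun v => if p ∣ v then (0 : ℝ) else
      ((((range (p ^ 2)).filter (fun u => u ^ 2 ≡ 4 * n + r * v ^ 2 [MOD p ^ 2])).card : ℕ) : ℝ)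
      with hB
    have hAB : ∀ v, hp p 2 r e n v ≤ A v + B v := by
      intro v
      by_cases hv : p ∣ v
      · have h1 := key v (Dvd.dvd.mul_left (Dvd.dvd.pow hv (by norm_num)) _)
        simp only [hA, hB, if_pos hv]
        linarith
      · simp only [hA, hB, if_neg hv]
        unfold Pool.Agent.N71.PS.hp
        have hf : v.factorization p = 0 := Nat.factorization_eq_zero_of_not_dvd hv
        rw [hf]
        split_ifs with h
        · positivity
        · simp
    have hAper : ∀ v, A (v + p) = A v := by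
      intro v
      simp only [hA, Nat.dvd_add_self_right]
    have hBper : ∀ v, B (v + p ^ 2) = B v := by
      intro v
      have hd : p ∣ v + p ^ 2 ↔ p ∣ v := Nat.dvd_add_left (dvd_pow_self p (by norm_num))
      simp only [hB, hd]
      split_ifs with h
      · rfl
      · congr 2
        apply Finset.filter_congr
        intro u _
        have h1 : 4 * n + r * (v + p ^ 2) ^ 2 ≡ 4 * n + r * v ^ 2 [MOD p ^ 2] := by
          apply Nat.ModEq.add_left
          apply Nat.ModEq.mul_left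
          apply Nat.ModEq.pow
          simp [Nat.ModEq]
        exact ⟨fun h => h.trans h1, fun h => h.trans h1.symm⟩
    have hsA : ∑ v ∈ range (p ^ (2 * e + 4)), A v =
        (p : ℝ) ^ (2 * e + 3) * (1 + (quadraticChar (ZMod p) (n : ZMod p) : ℝ)) := by
      have h1 := sum_per A p hAper (p ^ (2 * e + 3))
      rw [show p ^ (2 * e + 3) * p = p ^ (2 * e + 4) by ring] at h1
      rw [h1]
      push_cast
      congr 1
      rw [Finset.sum_eq_single_of_mem 0 (Finset.mem_range.2 hpp)]
      · simp [hA]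
      · intro b hb hb0
        have hnd : ¬ p ∣ b := fun h => by
          have := Nat.le_of_dvd (Nat.pos_of_ne_zero hb0) h
          have := Finset.mem_range.1 hb
          omega
        simp [hA, hnd]
    have hsB : ∑ v ∈ range (p ^ (2 * e + 4)), B v ≤
        (p : ℝ) ^ (2 * e + 2) * (p * (p - (quadraticChar (ZMod p) (r : ZMod p) : ℝ) - 1 -
        (quadraticChar (ZMod p) (n : ZMod p) : ℝ))) := by
      have h1 := sum_per B (p ^ 2) hBper (p ^ (2 * e + 2))
      rw [show p ^ (2 * e + 2) * p ^ 2 = p ^ (2 * e + 4) by ring] at h1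
      rw [h1]
      push_cast
      exact mul_le_mul_of_nonneg_left (sum_modp2 hp2 r n hr hpn) (by positivity)
    have hp0 : (p : ℝ) ≠ 0 := by exact_mod_cast hpp.ne'
    calc ∑ v ∈ range (p ^ (2 * e + 4)), hp p 2 r e n v ≤
          ∑ v ∈ range (p ^ (2 * e + 4)), (A v + B v) := Finset.sum_le_sum fun v _ => hAB v
      _ = ∑ v ∈ range (p ^ (2 * e + 4)), A v + ∑ v ∈ range (p ^ (2 * e + 4)), B v :=
          Finset.sum_add_distrib
      _ ≤ (p : ℝ) ^ (2 * e + 3) * (1 + (quadraticChar (ZMod p) (n : ZMod p) : ℝ)) +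
          (p : ℝ) ^ (2 * e + 2) * (p * (p - (quadraticChar (ZMod p) (r : ZMod p) : ℝ) - 1 -
          (quadraticChar (ZMod p) (n : ZMod p) : ℝ))) := by
          rw [hsA]
          exact add_le_add le_rfl hsB
      _ = (1 - (quadraticChar (ZMod p) (r : ZMod p) : ℝ) / p) * (p : ℝ) ^ (2 * e + 4) := by
          field_simp
          ring

end Pool.Agent.N71.PS.LO
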